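import Mathlib

/-!
# Curves with rational coefficients in the upper half-plane: the arithmetic of Hecke translates
-/

set_option autoImplicit false

namespace Pool.Agent.Helper85.RC

/-- `w` lies on one of the curves `n |w| ^ 2 + k Re w + l = κ Im w`, where `(n, k, l) ≠ (0, 0, 0)` are integers with
`k ^ 2 - 4 n l = Δ`. -/
def OnCurve (Δ : ℤ) (κ : ℝ) (w : ℂ) : Prop :=
  ∃ n k l : ℤ, ¬ (n = 0 ∧ k = 0 ∧ l = 0) ∧ k ^ 2 - 4 * n * l = Δ ∧
    n * (w.re ^ 2 + w.im ^ 2) + k * w.re + l = κ * w.im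

/-- a quadratic polynomial does not vanish at a large integer -/
lemma nz {A B C m : ℤ} (h : ¬ (A = 0 ∧ B = 0 ∧ C = 0)) (hm : |A| + |B| + |C| < m) : A * m ^ 2 + B * m + C ≠ 0 := by
  intro h0
  have hA := abs_nonneg A
  have hB := abs_nonneg B
  have hC := abs_nonneg C
  have hm0 : 0 < m := by linarith
  by_cases hA0 : A = 0
  · by_cases hB0 : B = 0
    · subst hA0 hB0
      simp at h0
      exact h ⟨rfl, rfl, h0⟩
    · have h1 : 1 ≤ |B| := Int.one_le_abs hB0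
      subst hA0
      have h2 : B * m = -C := by linarith
      have h3 : |B| * m = |C| := by
        have h4 : |B * m| = |B| * m := by rw [abs_mul, abs_of_pos hm0]
        rw [← h4, h2, abs_neg]
      nlinarith [abs_nonneg (0 : ℤ)]
  · have h1 : 1 ≤ |A| := Int.one_le_abs hA0
    have h2 : A * m ^ 2 = -(B * m + C) := by linarith
    have h3 : |A| * m ^ 2 = |B * m + C| := by
      rw [← abs_neg (B * m + C), ← h2, abs_mul, abs_of_pos (pow_pos hm0 2)]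
    have h4 : |B * m + C| ≤ |B| * m + |C| := by
      refine (abs_add_le _ _).trans ?_
      rw [abs_mul, abs_of_pos hm0]
    have h5 : |B| * m + |C| ≤ (|B| + |C|) * m := by nlinarith
    have h6 : (|B| + |C|) * m < m * m := by nlinarith
    have h7 : m * m ≤ |A| * m ^ 2 := by nlinarith [sq_nonneg m]
    linarith

/-- the divisibility step -/
lemma step {P n k l m a b N e : ℤ} (hg : IsCoprime (a + 2 * b * m + N * m ^ 2) P)
    (hrel : a * n + b * (2 * n * m + k * P) + N * (n * m ^ 2 + k * m * P + l * P ^ 2) = P * e) : P ∣ n := by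
  have h1 : P ∣ n * (a + 2 * b * m + N * m ^ 2) := by
    refine ⟨e - b * k - N * k * m - N * l * P, ?_⟩
    linear_combination hrel
  exact hg.symm.dvd_of_dvd_mul_right h1

/-- a rational functional on the real numbers -/
lemma exists_phi : ∃ φ : ℝ →ₗ[ℚ] ℚ, φ 1 = 1 := by
  have hinj : LinearMap.ker (Algebra.linearMap ℚ ℝ) = ⊥ := by
    rw [LinearMap.ker_eq_bot]
    exact (algebraMap ℚ ℝ).injective
  obtain ⟨g, hg⟩ := LinearMap.exists_leftInverse_of_injective (Algebra.linearMap ℚ ℝ) hinj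
  refine ⟨g, ?_⟩
  have := LinearMap.congr_fun hg 1
  simpa using this

/-- common denominators -/
lemma common (φ : ℝ →ₗ[ℚ] ℚ) (S : Finset ℝ) : ∃ N : ℕ, 0 < N ∧ ∀ t ∈ S, ∃ e : ℤ, (N : ℚ) * φ t = e := by
  classical
  refine ⟨∏ t ∈ S, (φ t).den, Finset.prod_pos fun t _ => (φ t).den_pos, fun t ht => ?_⟩
  obtain ⟨m, hm⟩ := Finset.dvd_prod_of_mem (fun t => (φ t).den) ht
  refine ⟨m * (φ t).num, ?_⟩
  rw [hm]
  push_cast
  have h1 : ((φ t).den : ℚ) * φ t = (φ t).num := by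
    rw [mul_comm]
    exact Rat.mul_den_eq_num (φ t)
  linear_combination (m : ℚ) * h1

/-- the relation satisfied by a triple whose curve contains `(z + m) / P` -/
lemma rel_of {z : ℂ} {κ : ℝ} {P n k l m : ℤ} (hP : P ≠ 0)
    (h : n * (((z + m) / P : ℂ).re ^ 2 + ((z + m) / P : ℂ).im ^ 2) + k * ((z + m) / P : ℂ).re + l =
      κ * ((z + m) / P : ℂ).im) :
    (n : ℝ) * (z.re ^ 2 + z.im ^ 2) + ((2 * n * m + k * P : ℤ) : ℝ) * z.re +
      ((n * m ^ 2 + k * m * P + l * P ^ 2 : ℤ) : ℝ) = P * (κ * z.im) := by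
  have hP' : (P : ℝ) ≠ 0 := by exact_mod_cast hP
  have e1 : ((z + m) / P : ℂ).re = (z.re + m) / P := by
    rw [show (P : ℂ) = ((P : ℝ) : ℂ) by norm_cast, Complex.div_ofReal_re]
    simp
  have e2 : ((z + m) / P : ℂ).im = z.im / P := by
    rw [show (P : ℂ) = ((P : ℝ) : ℂ) by norm_cast, Complex.div_ofReal_im]
    simp
  rw [e1, e2] at h
  have h1 : (P : ℝ) ^ 2 * (n * (((z.re + m) / P) ^ 2 + (z.im / P) ^ 2) + k * ((z.re + m) / P) + l) =
      n * ((z.re + m) ^ 2 + z.im ^ 2) + k * P * (z.re + m) + l * P ^ 2 := by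
    field_simp
  have h2 : (P : ℝ) ^ 2 * (κ * (z.im / P)) = P * (κ * z.im) := by
    field_simp
  push_cast
  rw [← h2, ← h, h1]
  ring

/-- **The descent.** If `(z + m) / P` is on a curve then `z` is on a curve of the same kind, given by a form which
takes a value divisible by `P` at `m`. -/
lemma descend {z : ℂ} {κ : ℝ} {Δ P n k l m a b N e : ℤ} (hP : P ≠ 0) (φ : ℝ →ₗ[ℚ] ℚ) (hφ : φ 1 = 1)
    (ha : (N : ℚ) * φ (z.re ^ 2 + z.im ^ 2) = a) (hb : (N : ℚ) * φ z.re = b) (he : (N : ℚ) * φ (κ * z.im) = e)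
    (hg : IsCoprime (a + 2 * b * m + N * m ^ 2) P)
    (h0 : ¬ (n = 0 ∧ k = 0 ∧ l = 0)) (hΔ : k ^ 2 - 4 * n * l = Δ)
    (h : n * (((z + m) / P : ℂ).re ^ 2 + ((z + m) / P : ℂ).im ^ 2) + k * ((z + m) / P : ℂ).re + l =
      κ * ((z + m) / P : ℂ).im) :
    ∃ F1 F2 F3 : ℤ, ¬ (F1 = 0 ∧ F2 = 0 ∧ F3 = 0) ∧ F2 ^ 2 - 4 * F1 * F3 = Δ ∧
      F1 * (z.re ^ 2 + z.im ^ 2) + F2 * z.re + F3 = κ * z.im ∧ P ∣ F1 * m ^ 2 - F2 * m + F3 := by
  have h1 := rel_of hP h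
  have h2 := congrArg φ h1
  have e1 : ∀ (c : ℤ) (t : ℝ), φ ((c : ℝ) * t) = c * φ t := by
    intro c t
    have : (c : ℝ) * t = (c : ℚ) • t := by rw [Rat.smul_def]; push_cast; ring
    rw [this, map_smul, smul_eq_mul]
  have e2 : ∀ c : ℤ, φ (c : ℝ) = c := by
    intro c
    have := e1 c 1
    rw [mul_one, hφ, mul_one] at this
    exact this
  rw [map_add, map_add, e1, e1, e1, e2] at h2
  have hrel : a * n + b * (2 * n * m + k * P) + N * (n * m ^ 2 + k * m * P + l * P ^ 2) = P * e := by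
    have h3 : ((a * n + b * (2 * n * m + k * P) + N * (n * m ^ 2 + k * m * P + l * P ^ 2) : ℤ) : ℚ) =
        ((P * e : ℤ) : ℚ) := by
      push_cast at h2 ⊢
      rw [← ha, ← hb, ← he]
      linear_combination (N : ℚ) * h2
    exact_mod_cast h3
  obtain ⟨n', rfl⟩ := step hg hrel
  refine ⟨n', 2 * n' * m + k, n' * m ^ 2 + k * m + l * P, ?_, ?_, ?_, ⟨l, by ring⟩⟩
  · rintro ⟨h4, h5, h6⟩
    subst h4
    have h7 : k = 0 := by simpa using h5
    subst h7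
    have h8 : l = 0 := by
      have : l * P = 0 := by simpa using h6
      exact (mul_eq_zero.1 this).resolve_right hP
    exact h0 ⟨by simp, rfl, h8⟩
  · rw [← hΔ]
    ring
  · have hP' : (P : ℝ) ≠ 0 := by exact_mod_cast hP
    apply mul_left_cancel₀ hP'
    push_cast at h1 ⊢
    linear_combination h1

/-- bound for the forms whose curve passes through a point of a compact set -/
lemma bound (Δ : ℤ) (κ : ℝ) (R : ℝ) (hR : 1 ≤ R) : ∃ B : ℕ, ∀ w : ℂ, |w.re| ≤ R → 1 / R ≤ w.im → w.im ≤ R →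
    ∀ n k l : ℤ, k ^ 2 - 4 * n * l = Δ → n * (w.re ^ 2 + w.im ^ 2) + k * w.re + l = κ * w.im →
      |n| ≤ B ∧ |k| ≤ B ∧ |l| ≤ B := by
  obtain ⟨M, hM⟩ : ∃ M : ℝ, M = |(Δ : ℝ)| + κ ^ 2 + 1 := ⟨_, rfl⟩
  obtain ⟨B1, hB1⟩ : ∃ B1 : ℝ, B1 = R * (M + |κ|) := ⟨_, rfl⟩
  obtain ⟨B2, hB2⟩ : ∃ B2 : ℝ, B2 = M + 2 * R * B1 := ⟨_, rfl⟩
  obtain ⟨B3, hB3⟩ : ∃ B3 : ℝ, B3 = |κ| * R + B1 * (2 * R ^ 2) + B2 * R := ⟨_, rfl⟩
  have hM1 : 1 ≤ M := by rw [hM]; nlinarith [abs_nonneg (Δ : ℝ), sq_nonneg κ]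
  have hκ := abs_nonneg κ
  have hR0 : 0 < R := by linarith
  have hB10 : 0 ≤ B1 := by rw [hB1]; positivity
  have hB20 : 0 ≤ B2 := by rw [hB2]; positivity
  refine ⟨⌈B1 + B2 + B3⌉₊, fun w hx hy1 hy2 n k l hΔ h => ?_⟩
  have hB30 : 0 ≤ B3 := by rw [hB3]; positivity
  have hy : 0 < w.im := lt_of_lt_of_le (by positivity) hy1
  have hl : (l : ℝ) = κ * w.im - n * (w.re ^ 2 + w.im ^ 2) - k * w.re := by linarith
  have hΔ' : (k : ℝ) ^ 2 - 4 * n * l = Δ := by exact_mod_cast hΔ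
  have hid : (k + 2 * w.re * n) ^ 2 + (2 * w.im * n - κ) ^ 2 = Δ + κ ^ 2 := by
    rw [← hΔ', hl]
    ring
  have hle : (Δ : ℝ) + κ ^ 2 ≤ M ^ 2 := by
    have h1 := le_abs_self (Δ : ℝ)
    nlinarith
  have h1 : |k + 2 * w.re * n| ≤ M := abs_le_of_sq_le_sq (by nlinarith [sq_nonneg (2 * w.im * n - κ)]) (by linarith)
  have h2 : |2 * w.im * n - κ| ≤ M := abs_le_of_sq_le_sq (by nlinarith [sq_nonneg (k + 2 * w.re * n)]) (by linarith)
  have hn : |(n : ℝ)| ≤ B1 := by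
    have h3 : 2 * w.im * |(n : ℝ)| ≤ M + |κ| := by
      have h4 : |2 * w.im * n| ≤ |2 * w.im * n - κ| + |κ| := by
        have := abs_add_le (2 * w.im * n - κ) κ
        rwa [sub_add_cancel] at this
      rw [abs_mul, abs_of_pos (by positivity : (0 : ℝ) < 2 * w.im)] at h4
      linarith
    have h5 : 1 ≤ R * w.im := by
      rw [div_le_iff₀ hR0] at hy1
      linarith
    have h6 : |(n : ℝ)| ≤ R * (w.im * |(n : ℝ)|) := by nlinarith [abs_nonneg (n : ℝ)]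
    have h7 : w.im * |(n : ℝ)| ≤ M + |κ| := by nlinarith [abs_nonneg (n : ℝ)]
    rw [hB1]
    nlinarith
  have hk : |(k : ℝ)| ≤ B2 := by
    have h4 : |(k : ℝ)| ≤ |k + 2 * w.re * n| + |2 * w.re * n| := by
      have := abs_sub (k + 2 * w.re * n) (2 * w.re * n)
      rwa [add_sub_cancel_right] at this
    have h5 : |2 * w.re * n| ≤ 2 * R * B1 := by
      rw [abs_mul, abs_mul, abs_of_pos (by norm_num : (0 : ℝ) < 2)]
      gcongr
    rw [hB2]
    linarith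
  have hl' : |(l : ℝ)| ≤ B3 := by
    have h4 : |κ * w.im| ≤ |κ| * R := by
      rw [abs_mul, abs_of_pos hy]
      gcongr
    have h5 : |(n : ℝ) * (w.re ^ 2 + w.im ^ 2)| ≤ B1 * (2 * R ^ 2) := by
      rw [abs_mul, abs_of_nonneg (by positivity : (0 : ℝ) ≤ w.re ^ 2 + w.im ^ 2)]
      have h6 : w.re ^ 2 ≤ R ^ 2 := sq_le_sq' (by linarith [(abs_le.1 hx).1]) (abs_le.1 hx).2
      have h7 : w.im ^ 2 ≤ R ^ 2 := pow_le_pow_left₀ hy.le hy2 2
      exact mul_le_mul hn (by linarith) (by positivity) hB10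
    have h6 : |(k : ℝ) * w.re| ≤ B2 * R := by
      rw [abs_mul]
      gcongr
    rw [hl, hB3]
    have h7 := abs_sub (κ * w.im - n * (w.re ^ 2 + w.im ^ 2)) (k * w.re)
    have h8 := abs_sub (κ * w.im) (n * (w.re ^ 2 + w.im ^ 2))
    linarith
  have hceil := Nat.le_ceil (B1 + B2 + B3)
  refine ⟨?_, ?_, ?_⟩
  · have : |(n : ℝ)| ≤ (⌈B1 + B2 + B3⌉₊ : ℝ) := by linarith
    exact_mod_cast this
  · have : |(k : ℝ)| ≤ (⌈B1 + B2 + B3⌉₊ : ℝ) := by linarith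
    exact_mod_cast this
  · have : |(l : ℝ)| ≤ (⌈B1 + B2 + B3⌉₊ : ℝ) := by linarith
    exact_mod_cast this

end Pool.Agent.Helper85.RC
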