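import Pool.Agent.Helper85.RC.Arith

/-!
# Curves with rational coefficients in the upper half-plane: the good branch of the Hecke tree
-/

set_option autoImplicit false

open Filter Topology

namespace Pool.Agent.Helper85.RC

/-- the points of the upper half-plane which are on none of the curves -/
def Off (D : Finset (ℤ × ℝ)) : Set ℂ := {w | 0 < w.im ∧ ∀ d ∈ D, ¬ OnCurve d.1 d.2 w}

lemma exists_R {w : ℂ} (hw : 0 < w.im) : ∃ R : ℝ, 1 ≤ R ∧ |w.re| < R ∧ 1 / R < w.im ∧ w.im < R := by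
  refine ⟨|w.re| + w.im + 1 / w.im + 1, ?_, ?_, ?_, ?_⟩
  · have := abs_nonneg w.re
    have : 0 < 1 / w.im := by positivity
    linarith
  · have : 0 < 1 / w.im := by positivity
    linarith
  · have h1 := abs_nonneg w.re
    have h2 : 0 < 1 / w.im := by positivity
    rw [div_lt_iff₀ (by linarith)]
    have h3 : w.im * (1 / w.im) = 1 := by field_simp
    nlinarith
  · have h1 := abs_nonneg w.re
    have : 0 < 1 / w.im := by positivity
    linarith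

lemma isOpen_one (Δ : ℤ) (κ : ℝ) : IsOpen {w : ℂ | 0 < w.im ∧ ¬ OnCurve Δ κ w} := by
  rw [isOpen_iff_mem_nhds]
  rintro w₀ ⟨hw₀, h₀⟩
  obtain ⟨R, hR, h1, h2, h3⟩ := exists_R hw₀
  obtain ⟨B, hB⟩ := bound Δ κ R hR
  have c1 : ∀ᶠ w : ℂ in 𝓝 w₀, |w.re| < R :=
    (continuous_abs.comp Complex.continuous_re).continuousAt.eventually_lt continuousAt_const h1
  have c2 : ∀ᶠ w : ℂ in 𝓝 w₀, 1 / R < w.im :=
    continuousAt_const.eventually_lt Complex.continuous_im.continuousAt h2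
  have c3 : ∀ᶠ w : ℂ in 𝓝 w₀, w.im < R :=
    Complex.continuous_im.continuousAt.eventually_lt continuousAt_const h3
  have c4 : ∀ᶠ w : ℂ in 𝓝 w₀, ∀ t ∈ (Finset.Icc (-(B : ℤ)) B ×ˢ Finset.Icc (-(B : ℤ)) B ×ˢ Finset.Icc (-(B : ℤ)) B).filter
      (fun t : ℤ × ℤ × ℤ => ¬ (t.1 = 0 ∧ t.2.1 = 0 ∧ t.2.2 = 0) ∧ t.2.1 ^ 2 - 4 * t.1 * t.2.2 = Δ),
      (t.1 : ℝ) * (w.re ^ 2 + w.im ^ 2) + t.2.1 * w.re + t.2.2 - κ * w.im ≠ 0 := by
    rw [Filter.eventually_all_finset]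
    intro t ht
    rw [Finset.mem_filter] at ht
    have hc : Continuous (fun w : ℂ => (t.1 : ℝ) * (w.re ^ 2 + w.im ^ 2) + t.2.1 * w.re + t.2.2 - κ * w.im) := by
      fun_prop
    refine hc.continuousAt.eventually_ne ?_
    intro h4
    exact h₀ ⟨t.1, t.2.1, t.2.2, ht.2.1, ht.2.2, by linarith⟩
  have c5 : ∀ᶠ w : ℂ in 𝓝 w₀, 0 < w.im := continuousAt_const.eventually_lt Complex.continuous_im.continuousAt hw₀
  filter_upwards [c1, c2, c3, c4, c5] with w d1 d2 d3 d4 d5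
  refine ⟨d5, ?_⟩
  rintro ⟨n, k, l, h4, h5, h6⟩
  obtain ⟨b1, b2, b3⟩ := hB w d1.le d2.le d3.le n k l h5 h6
  refine d4 (n, k, l) ?_ (by simp only; linarith)
  rw [Finset.mem_filter, Finset.mem_product, Finset.mem_product]
  exact ⟨⟨Finset.mem_Icc.2 (abs_le.1 b1), Finset.mem_Icc.2 (abs_le.1 b2), Finset.mem_Icc.2 (abs_le.1 b3)⟩, h4, h5⟩

lemma isOpen_off (D : Finset (ℤ × ℝ)) : IsOpen (Off D) := by
  have e : Off D = {w : ℂ | 0 < w.im} ∩ ⋂ d ∈ D, {w : ℂ | 0 < w.im ∧ ¬ OnCurve d.1 d.2 w} := by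
    ext w
    simp only [Off, Set.mem_ofPred_eq, Set.mem_inter_iff, Set.mem_iInter]
    constructor
    · rintro ⟨h1, h2⟩
      exact ⟨h1, fun d hd => ⟨h1, h2 d hd⟩⟩
    · rintro ⟨h1, h2⟩
      exact ⟨h1, fun d hd => (h2 d hd).2⟩
  rw [e]
  exact (isOpen_lt continuous_const Complex.continuous_im).inter
    (isOpen_biInter_finset fun d _ => isOpen_one d.1 d.2)

lemma im_pt {z : ℂ} (hz : 0 < z.im) {m P : ℤ} (hP : 0 < P) : 0 < ((z + m) / P : ℂ).im := by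
  have e2 : ((z + m) / P : ℂ).im = z.im / P := by
    rw [show (P : ℂ) = ((P : ℝ) : ℂ) by norm_cast, Complex.div_ofReal_im]
    simp
  rw [e2]
  have : (0 : ℝ) < P := by exact_mod_cast hP
  positivity

/-- **The good branch.** There are `b` and a prime `p` such that `(z + m) / p ^ i` is on none of the curves, for all
`m ≡ b` modulo `p` and all `i`. -/
theorem good_branch (D : Finset (ℤ × ℝ)) {z : ℂ} (hz : 0 < z.im) : ∃ (b : ℕ) (p : ℕ), p.Prime ∧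
    ∀ (m : ℤ) (i : ℕ), (p : ℤ) ∣ m - b → ((z + m) / ((p : ℤ) ^ (i + 1) : ℤ) : ℂ) ∈ Off D := by
  classical
  obtain ⟨φ, hφ⟩ := exists_phi
  obtain ⟨N, hN, hS⟩ := common φ (insert (z.re ^ 2 + z.im ^ 2) (insert z.re (D.image (fun d => d.2 * z.im))))
  obtain ⟨a, ha⟩ := hS (z.re ^ 2 + z.im ^ 2) (Finset.mem_insert_self _ _)
  obtain ⟨b', hb'⟩ := hS z.re (Finset.mem_insert_of_mem (Finset.mem_insert_self _ _))
  have he : ∀ d ∈ D, ∃ e : ℤ, (N : ℚ) * φ (d.2 * z.im) = e := fun d hd =>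
    hS _ (Finset.mem_insert_of_mem (Finset.mem_insert_of_mem (Finset.mem_image_of_mem _ hd)))
  obtain ⟨R, hR, r1, r2, r3⟩ := exists_R hz
  choose B hB using fun d : ℤ × ℝ => bound d.1 d.2 R hR
  obtain ⟨BB, hBB⟩ : ∃ BB, BB = ∑ d ∈ D, B d := ⟨_, rfl⟩
  have hBle : ∀ d ∈ D, B d ≤ BB := fun d hd => by
    rw [hBB]; exact Finset.single_le_sum (f := B) (fun _ _ => Nat.zero_le _) hd
  obtain ⟨b, hb⟩ : ∃ b : ℕ, b = 3 * BB + a.natAbs + (2 * b').natAbs + N + 1 := ⟨_, rfl⟩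
  obtain ⟨p, hp1, hp⟩ := Nat.exists_infinite_primes
    (3 * BB * b ^ 2 + (a + 2 * b' * b + N * (b : ℤ) ^ 2).natAbs + 1)
  have hb0 : (1 : ℤ) ≤ b := by exact_mod_cast (show 1 ≤ b by omega)
  have hgb : a + 2 * b' * b + N * (b : ℤ) ^ 2 ≠ 0 := by
    have h1 : ¬ ((N : ℤ) = 0 ∧ 2 * b' = 0 ∧ a = 0) := fun h => by
      have := h.1
      omega
    have h2 := nz (m := (b : ℤ)) h1 (by
      rw [hb, Int.abs_eq_natAbs a, Int.abs_eq_natAbs (2 * b')]
      push_cast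
      have : |(N : ℤ)| = N := abs_of_nonneg (by positivity)
      omega)
    intro h3
    apply h2
    linarith
  have hpi : Prime (p : ℤ) := Nat.prime_iff_prime_int.1 hp
  refine ⟨b, p, hp, fun m i hm => ⟨im_pt hz (pow_pos (by exact_mod_cast hp.pos) _), fun d hd => ?_⟩⟩
  rintro ⟨n, k, l, h0, hΔ, h⟩
  obtain ⟨q, hq⟩ := hm
  have hmq : m = b + p * q := by linarith
  have hg : ¬ (p : ℤ) ∣ a + 2 * b' * m + N * m ^ 2 := by
    intro h1
    have h2 : (p : ℤ) ∣ a + 2 * b' * b + N * (b : ℤ) ^ 2 := by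
      have h3 : a + 2 * b' * m + N * m ^ 2 = (a + 2 * b' * b + N * (b : ℤ) ^ 2) +
          p * (2 * b' * q + N * (2 * b * q + p * q ^ 2)) := by
        rw [hmq]; ring
      rw [h3] at h1
      exact (dvd_add_left (dvd_mul_right _ _)).1 h1
    have h3 := Int.natAbs_dvd_natAbs.2 h2
    rw [Int.natAbs_natCast] at h3
    have h4 := Nat.le_of_dvd (Int.natAbs_pos.2 hgb) h3
    omega
  have hcop : IsCoprime (a + 2 * b' * m + N * m ^ 2) ((p : ℤ) ^ (i + 1)) :=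
    (((Prime.coprime_iff_not_dvd hpi).2 hg).symm).pow_right
  obtain ⟨e, he⟩ := he d hd
  obtain ⟨F1, F2, F3, f0, f1, f2, f3⟩ := descend (z := z) (κ := d.2) (Δ := d.1) (pow_ne_zero _ hpi.ne_zero) φ hφ
    (N := (N : ℤ)) (by exact_mod_cast ha) (by exact_mod_cast hb') (by exact_mod_cast he) hcop h0 hΔ h
  obtain ⟨g1, g2, g3⟩ := hB d z r1.le r2.le r3.le F1 F2 F3 f1 f2
  have hle := hBle d hd
  have hBd : (B d : ℤ) ≤ BB := by exact_mod_cast hle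
  have hval : F1 * (b : ℤ) ^ 2 + (-F2) * b + F3 ≠ 0 := by
    apply nz
    · rintro ⟨h1, h2, h3⟩
      exact f0 ⟨h1, by simpa using h2, h3⟩
    · rw [abs_neg]
      have h7 : (3 * BB + 1 : ℤ) ≤ b := by exact_mod_cast (show 3 * BB + 1 ≤ b by omega)
      linarith
  have hdvd : (p : ℤ) ∣ F1 * (b : ℤ) ^ 2 + (-F2) * b + F3 := by
    have h1 : (p : ℤ) ∣ F1 * m ^ 2 - F2 * m + F3 := (dvd_pow_self _ (Nat.succ_ne_zero i)).trans f3
    have h3 : F1 * m ^ 2 - F2 * m + F3 = (F1 * (b : ℤ) ^ 2 + (-F2) * b + F3) +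
        p * (F1 * (2 * b * q + p * q ^ 2) - F2 * q) := by
      rw [hmq]; ring
    rw [h3] at h1
    exact (dvd_add_left (dvd_mul_right _ _)).1 h1
  have h3 := Int.le_of_dvd (abs_pos.2 hval) ((dvd_abs _ _).2 hdvd)
  have h4 : |F1 * (b : ℤ) ^ 2 + (-F2) * b + F3| ≤ 3 * BB * (b : ℤ) ^ 2 := by
    have h5 : |F1 * (b : ℤ) ^ 2| ≤ BB * (b : ℤ) ^ 2 := by
      rw [abs_mul, abs_of_nonneg (sq_nonneg (b : ℤ))]
      exact mul_le_mul_of_nonneg_right (by linarith) (sq_nonneg _)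
    have h6 : |(-F2) * (b : ℤ)| ≤ BB * (b : ℤ) ^ 2 := by
      rw [abs_mul, abs_neg, abs_of_nonneg (by linarith : (0 : ℤ) ≤ b)]
      have : (b : ℤ) ≤ (b : ℤ) ^ 2 := by nlinarith
      exact mul_le_mul (by linarith) this (by linarith) (by positivity)
    have h7 : |F3| ≤ BB * (b : ℤ) ^ 2 := by
      have : (1 : ℤ) ≤ (b : ℤ) ^ 2 := by nlinarith
      have h8 : (0 : ℤ) ≤ BB := by positivity
      nlinarith
    have h8 := abs_add_le (F1 * (b : ℤ) ^ 2 + (-F2) * b) F3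
    have h9 := abs_add_le (F1 * (b : ℤ) ^ 2) ((-F2) * (b : ℤ))
    linarith
  have h5 : ((3 * BB * b ^ 2 + (a + 2 * b' * b + N * (b : ℤ) ^ 2).natAbs + 1 : ℕ) : ℤ) ≤ p := by exact_mod_cast hp1
  push_cast at h5
  have := abs_nonneg (a + 2 * b' * b + N * (b : ℤ) ^ 2)
  linarith

end Pool.Agent.Helper85.RC
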