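import Pool.Agent.Helper85.RC.Geo
import Pool.Agent.N889.SN.Fin

/-!
# Curves with rational coefficients in the upper half-plane: the local estimate
-/

set_option autoImplicit false

open Filter Topology

namespace Pool.Agent.Helper85.RC

open Pool.Agent.N889.SN (Per KK KK_nonneg isPer)

/-- the Hecke relation at `(z + b) / p` -/
lemma relation {K : ℕ → ℝ} {U : ℂ → ℂ} (hU : Per K U) {p : ℕ} (hp : p.Prime) (b : ℕ) {z : ℂ} (hz : 0 < z.im) :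
    ‖U z‖ ≤ K p * ‖U ((z + (b : ℤ)) / ((p : ℤ) ^ (0 + 1) : ℤ))‖ +
      ∑ j ∈ Finset.range p, ‖U ((z + ((b : ℤ) + p * j : ℤ)) / ((p : ℤ) ^ (1 + 1) : ℤ))‖ := by
  obtain ⟨c, hc, hrel⟩ := hU.hecke p hp
  have hpc : (p : ℂ) ≠ 0 := by exact_mod_cast hp.ne_zero
  have him : 0 < ((z + (b : ℤ)) / ((p : ℤ) ^ (0 + 1) : ℤ) : ℂ).im := im_pt hz (pow_pos (by exact_mod_cast hp.pos) _)
  have h1 := hrel _ him
  have e1 : (p : ℂ) * ((z + (b : ℤ)) / ((p : ℤ) ^ (0 + 1) : ℤ) : ℂ) = z + (b : ℕ) := by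
    push_cast
    field_simp
  have e2 : ∀ j : ℕ, (((z + (b : ℤ)) / ((p : ℤ) ^ (0 + 1) : ℤ) : ℂ) + j) / p =
      (z + ((b : ℤ) + p * j : ℤ)) / ((p : ℤ) ^ (1 + 1) : ℤ) := by
    intro j
    push_cast
    field_simp
    ring
  rw [e1, hU.nat b hz] at h1
  simp only [e2] at h1
  have h2 : U z = c * U ((z + (b : ℤ)) / ((p : ℤ) ^ (0 + 1) : ℤ)) -
      ∑ j ∈ Finset.range p, U ((z + ((b : ℤ) + p * j : ℤ)) / ((p : ℤ) ^ (1 + 1) : ℤ)) := by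
    rw [← h1]; ring
  rw [h2]
  refine (norm_sub_le _ _).trans (add_le_add ?_ (norm_sum_le _ _))
  rw [norm_mul]
  gcongr

/-- the local estimate -/
theorem near (D : Finset (ℤ × ℝ)) {z : ℂ} (hz : 0 < z.im) : ∃ r : ℝ, 0 < r ∧ ∃ K' : Set ℂ, IsCompact K' ∧ K' ⊆ Off D ∧
    ∃ C : ℝ, 0 < C ∧ ∀ U : ℂ → ℂ, Per KK U → ∀ z' ∈ Metric.closedBall z r, ∃ w ∈ K', ‖U z'‖ ≤ C * ‖U w‖ := by
  obtain ⟨b, p, hp, hgood⟩ := good_branch D hz
  have hp0 : (p : ℤ) ≠ 0 := by exact_mod_cast hp.ne_zero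
  have hcont : ∀ (m : ℤ) (i : ℕ), Continuous (fun z' : ℂ => (z' + m) / ((p : ℤ) ^ (i + 1) : ℤ)) := by
    intro m i
    exact (continuous_id.add continuous_const).div_const _
  have hW : IsOpen ({z' : ℂ | 0 < z'.im} ∩ ((fun z' : ℂ => (z' + (b : ℤ)) / ((p : ℤ) ^ (0 + 1) : ℤ)) ⁻¹' Off D ∩
      ⋂ j ∈ Finset.range p, (fun z' : ℂ => (z' + ((b : ℤ) + p * j : ℤ)) / ((p : ℤ) ^ (1 + 1) : ℤ)) ⁻¹' Off D)) :=
    (isOpen_lt continuous_const Complex.continuous_im).inter (((isOpen_off D).preimage (hcont _ 0)).inter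
      (isOpen_biInter_finset fun j _ => (isOpen_off D).preimage (hcont _ 1)))
  have hzW : z ∈ ({z' : ℂ | 0 < z'.im} ∩ ((fun z' : ℂ => (z' + (b : ℤ)) / ((p : ℤ) ^ (0 + 1) : ℤ)) ⁻¹' Off D ∩
      ⋂ j ∈ Finset.range p, (fun z' : ℂ => (z' + ((b : ℤ) + p * j : ℤ)) / ((p : ℤ) ^ (1 + 1) : ℤ)) ⁻¹' Off D)) := by
    refine ⟨hz, hgood b 0 (by simp), ?_⟩
    simp only [Set.mem_iInter, Set.mem_preimage]
    intro j _
    exact hgood _ 1 ⟨j, by ring⟩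
  obtain ⟨r, hr, hsub⟩ := Metric.nhds_basis_closedBall.mem_iff.1 (hW.mem_nhds hzW)
  refine ⟨r, hr, (fun z' : ℂ => (z' + (b : ℤ)) / ((p : ℤ) ^ (0 + 1) : ℤ)) '' Metric.closedBall z r ∪
    ⋃ j ∈ Finset.range p, (fun z' : ℂ => (z' + ((b : ℤ) + p * j : ℤ)) / ((p : ℤ) ^ (1 + 1) : ℤ)) '' Metric.closedBall z r,
    ?_, ?_, KK p + p + 1, ?_, ?_⟩
  · exact ((isCompact_closedBall _ _).image (hcont _ 0)).union
      (Finset.isCompact_biUnion _ fun j _ => (isCompact_closedBall _ _).image (hcont _ 1))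
  · rintro w (⟨z', hz', rfl⟩ | hw)
    · exact (hsub hz').2.1
    · simp only [Set.mem_iUnion] at hw
      obtain ⟨j, hj, z', hz', rfl⟩ := hw
      have h1 := (hsub hz').2.2
      simp only [Set.mem_iInter, Set.mem_preimage] at h1
      exact h1 j hj
  · have := KK_nonneg p
    positivity
  · intro U hU z' hz'
    have hz'0 : 0 < z'.im := (hsub hz').1
    have hK := KK_nonneg p
    by_contra hcon
    push Not at hcon
    have h0 := hcon _ (Or.inl ⟨z', hz', rfl⟩)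
    have hj : ∀ j ∈ Finset.range p, (KK p + p + 1) * ‖U ((z' + ((b : ℤ) + p * j : ℤ)) / ((p : ℤ) ^ (1 + 1) : ℤ))‖ < ‖U z'‖ := by
      intro j hj
      refine hcon _ (Or.inr ?_)
      simp only [Set.mem_iUnion]
      exact ⟨j, hj, z', hz', rfl⟩
    have hrel := relation hU hp b hz'0
    have hC : 0 < KK p + p + 1 := by positivity
    have hsum : (KK p + p + 1) * ∑ j ∈ Finset.range p, ‖U ((z' + ((b : ℤ) + p * j : ℤ)) / ((p : ℤ) ^ (1 + 1) : ℤ))‖ ≤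
        p * ‖U z'‖ := by
      rw [Finset.mul_sum]
      refine (Finset.sum_le_sum fun j hj' => (hj j hj').le).trans ?_
      rw [Finset.sum_const, Finset.card_range, nsmul_eq_mul]
    have hpos : 0 < ‖U z'‖ := lt_of_le_of_lt (by positivity) h0
    have h1 : (KK p + p + 1) * ‖U z'‖ ≤ KK p * ‖U z'‖ + p * ‖U z'‖ := by
      calc (KK p + p + 1) * ‖U z'‖ ≤ (KK p + p + 1) * (KK p * ‖U ((z' + (b : ℤ)) / ((p : ℤ) ^ (0 + 1) : ℤ))‖ +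
            ∑ j ∈ Finset.range p, ‖U ((z' + ((b : ℤ) + p * j : ℤ)) / ((p : ℤ) ^ (1 + 1) : ℤ))‖) :=
            mul_le_mul_of_nonneg_left hrel hC.le
        _ = KK p * ((KK p + p + 1) * ‖U ((z' + (b : ℤ)) / ((p : ℤ) ^ (0 + 1) : ℤ))‖) +
            (KK p + p + 1) * ∑ j ∈ Finset.range p, ‖U ((z' + ((b : ℤ) + p * j : ℤ)) / ((p : ℤ) ^ (1 + 1) : ℤ))‖ := by ring
        _ ≤ KK p * ‖U z'‖ + p * ‖U z'‖ := add_le_add (mul_le_mul_of_nonneg_left h0.le hK) hsum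
    nlinarith

/-- compact sets -/
theorem main (D : Finset (ℤ × ℝ)) {Ω : Set ℂ} (hΩ : IsCompact Ω) (hΩ' : Ω ⊆ {z : ℂ | 0 < z.im}) :
    ∃ K' : Set ℂ, IsCompact K' ∧ K' ⊆ Off D ∧
      ∃ C : ℝ, 0 < C ∧ ∀ U : ℂ → ℂ, Per KK U → ∀ z ∈ Ω, ∃ w ∈ K', ‖U z‖ ≤ C * ‖U w‖ := by
  refine hΩ.induction_on (p := fun S => ∃ K' : Set ℂ, IsCompact K' ∧ K' ⊆ Off D ∧
      ∃ C : ℝ, 0 < C ∧ ∀ U : ℂ → ℂ, Per KK U → ∀ z ∈ S, ∃ w ∈ K', ‖U z‖ ≤ C * ‖U w‖) ?_ ?_ ?_ ?_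
  · exact ⟨∅, isCompact_empty, Set.empty_subset _, 1, one_pos, fun U _ z hz => absurd hz (Set.notMem_empty z)⟩
  · rintro S T hST ⟨K', h1, h2, C, hC, h3⟩
    exact ⟨K', h1, h2, C, hC, fun U hU z hz => h3 U hU z (hST hz)⟩
  · rintro S T ⟨K₁, a1, a2, C₁, hC₁, a3⟩ ⟨K₂, b1, b2, C₂, hC₂, b3⟩
    refine ⟨K₁ ∪ K₂, a1.union b1, Set.union_subset a2 b2, C₁ + C₂, by positivity, fun U hU z hz => ?_⟩
    rcases hz with hz | hz
    · obtain ⟨w, hw, h⟩ := a3 U hU z hz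
      refine ⟨w, Or.inl hw, h.trans ?_⟩
      nlinarith [norm_nonneg (U w)]
    · obtain ⟨w, hw, h⟩ := b3 U hU z hz
      refine ⟨w, Or.inr hw, h.trans ?_⟩
      nlinarith [norm_nonneg (U w)]
  · intro z hz
    obtain ⟨r, hr, K', h1, h2, C, hC, h3⟩ := near D (hΩ' hz)
    exact ⟨Metric.closedBall z r, mem_nhdsWithin_of_mem_nhds (Metric.closedBall_mem_nhds z hr), K', h1, h2, C, hC, h3⟩

end Pool.Agent.Helper85.RC
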